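import Mathlib
import Pool.Agent.Helper1_PRS.Stmts

/-! CLX: the vector fields of the `x`-line keep the order at all nodes -/

set_option autoImplicit false

namespace Pool.Agent.PRS.H65

open MvPolynomial

variable {N : ℕ}

theorem node_par (i j : Fin N) (q : Par N) : node i j (X (Sum.inr q)) = X (Sum.inr q) := by
  unfold node
  rw [aeval_X]
  rfl

theorem node_pa (i j : Fin N) (c : Fin 2) (k : Fin N) : node i j (pa c k) = pa c k :=
  node_par i j (c, k)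

theorem node_x0 (i j : Fin N) : node i j (jv N 0 0) = pa 0 i + jv N 0 0 := by
  unfold node jv
  rw [aeval_X]
  rfl

theorem node_x1 (i j : Fin N) : node i j (jv N 0 1) = jv N 0 1 := by
  unfold node jv
  rw [aeval_X]
  rfl

theorem node_x2 (i j : Fin N) : node i j (jv N 0 2) = jv N 0 2 := by
  unfold node jv
  rw [aeval_X]
  rfl

theorem node_y0 (i j : Fin N) : node i j (jv N 1 0) = pa 1 j + jv N 0 0 * jv N 1 0 := by
  unfold node jv
  rw [aeval_X]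
  rfl

theorem node_y1 (i j : Fin N) :
    node i j (jv N 1 1) = jv N 0 1 * jv N 1 0 + jv N 0 0 * jv N 1 1 := by
  unfold node jv
  rw [aeval_X]
  rfl

theorem node_y2 (i j : Fin N) : node i j (jv N 1 2) =
    jv N 0 2 * jv N 1 0 + 2 * (jv N 0 1 * jv N 1 1) + jv N 0 0 * jv N 1 2 := by
  unfold node jv
  rw [aeval_X]
  rfl

/-- the values of a derivation which are needed -/
theorem check (i j : Fin N) (δ θ : Derivation ℚ (S N) (S N))
    (hx0 : node i j (δ (jv N 0 0)) = θ (pa 0 i) + θ (jv N 0 0))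
    (hx1 : node i j (δ (jv N 0 1)) = θ (jv N 0 1))
    (hx2 : node i j (δ (jv N 0 2)) = θ (jv N 0 2))
    (hy0 : node i j (δ (jv N 1 0)) = θ (pa 1 j) + (θ (jv N 0 0) * jv N 1 0 +
      jv N 0 0 * θ (jv N 1 0)))
    (hy1 : node i j (δ (jv N 1 1)) = (θ (jv N 0 1) * jv N 1 0 + jv N 0 1 * θ (jv N 1 0)) +
      (θ (jv N 0 0) * jv N 1 1 + jv N 0 0 * θ (jv N 1 1)))
    (hy2 : node i j (δ (jv N 1 2)) = (θ (jv N 0 2) * jv N 1 0 + jv N 0 2 * θ (jv N 1 0)) +
      2 * (θ (jv N 0 1) * jv N 1 1 + jv N 0 1 * θ (jv N 1 1)) +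
      (θ (jv N 0 0) * jv N 1 2 + jv N 0 0 * θ (jv N 1 2)))
    (hp : ∀ c k, node i j (δ (pa c k)) = θ (pa c k)) :
    ∀ v, node i j (δ (X v)) = θ (node i j (X v)) := by
  have hL : ∀ p q : S N, θ (p * q) = θ p * q + p * θ q := by
    intro p q
    rw [Derivation.leibniz, smul_eq_mul, smul_eq_mul]
    ring
  intro v
  rcases v with ⟨c, l⟩ | ⟨c, k⟩
  · change node i j (δ (jv N c l)) = θ (node i j (jv N c l))
    fin_cases c
    · fin_cases l
      · show node i j (δ (jv N 0 0)) = θ (node i j (jv N 0 0))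
        rw [hx0, node_x0, map_add]
      · show node i j (δ (jv N 0 1)) = θ (node i j (jv N 0 1))
        rw [hx1, node_x1]
      · show node i j (δ (jv N 0 2)) = θ (node i j (jv N 0 2))
        rw [hx2, node_x2]
    · fin_cases l
      · show node i j (δ (jv N 1 0)) = θ (node i j (jv N 1 0))
        rw [hy0, node_y0, map_add, hL]
      · show node i j (δ (jv N 1 1)) = θ (node i j (jv N 1 1))
        rw [hy1, node_y1, map_add, hL, hL]
      · show node i j (δ (jv N 1 2)) = θ (node i j (jv N 1 2))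
        rw [hy2, node_y2, map_add, map_add, two_mul (jv N 0 1 * jv N 1 1), map_add, hL, hL, hL]
        ring
  · change node i j (δ (pa c k)) = θ (node i j (pa c k))
    rw [hp, node_pa]

/-- the derivation with given values -/
noncomputable def der (t : Fin 2 → Fin 3 → S N) (s : Fin 2 → Fin N → S N) :
    Derivation ℚ (S N) (S N) :=
  mkDerivation ℚ (Sum.elim (fun q => t q.1 q.2) (fun q => s q.1 q.2))

theorem der_jv (t : Fin 2 → Fin 3 → S N) (s : Fin 2 → Fin N → S N) (c : Fin 2) (l : Fin 3) :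
    der t s (jv N c l) = t c l := by
  unfold der jv
  rw [mkDerivation_X]
  rfl

theorem der_pa (t : Fin 2 → Fin 3 → S N) (s : Fin 2 → Fin N → S N) (c : Fin 2) (k : Fin N) :
    der t s (pa c k) = s c k := by
  unfold der pa
  rw [mkDerivation_X]
  rfl

theorem A_jv (c : Fin 2) (i : Fin N) (c' : Fin 2) (l : Fin 3) : A c i (jv N c' l) = 0 := by
  unfold A jv
  rw [mkDerivation_X]
  exact if_neg (by simp)

theorem A_pa (c : Fin 2) (i : Fin N) (c' : Fin 2) (k : Fin N) :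
    A c i (pa c' k) = if c' = c ∧ k = i then (jv N c 0 - pa c i) ^ 3 else 0 := by
  unfold A
  rw [show (pa c' k : S N) = X (Sum.inr (c', k)) from rfl, mkDerivation_X]
  by_cases h : c' = c ∧ k = i
  · rw [if_pos h, if_pos (by rw [h.1, h.2])]
  · rw [if_neg h, if_neg (by
      intro h1
      apply h
      have h2 := Sum.inr_injective h1
      exact ⟨congrArg Prod.fst h2, congrArg Prod.snd h2⟩)]

theorem T0_jv (c c' : Fin 2) (l : Fin 3) :
    T0 N c (jv N c' l) = if c' = c ∧ l = 0 then 1 else 0 := by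
  unfold T0 jv
  rw [mkDerivation_X, Sum.elim_inl]
  by_cases h : c' = c ∧ l = 0
  · rw [if_pos h, if_pos (by rw [h.1, h.2])]
  · rw [if_neg h, if_neg (by
      intro h2
      apply h
      exact ⟨congrArg Prod.fst h2, congrArg Prod.snd h2⟩)]

theorem T0_pa (c c' : Fin 2) (k : Fin N) : T0 N c (pa c' k) = if c' = c then 1 else 0 := by
  unfold T0 pa
  rw [mkDerivation_X]
  rfl

theorem T1_jv (c c' : Fin 2) (l : Fin 3) :
    T1 N c (jv N c' l) = if c' = c then jv N c' l else 0 := by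
  unfold T1
  rw [show jv N c' l = X (Sum.inl (c', l)) from rfl, mkDerivation_X]
  rfl

theorem T1_pa (c c' : Fin 2) (k : Fin N) :
    T1 N c (pa c' k) = if c' = c then pa c' k else 0 := by
  unfold T1
  rw [show (pa c' k : S N) = X (Sum.inr (c', k)) from rfl, mkDerivation_X]
  rfl

theorem T2_jv (c c' : Fin 2) (l : Fin 3) :
    T2 N c (jv N c' l) = if c' = c then ![jv N c 0 ^ 2, 2 * (jv N c 0 * jv N c 1),
      2 * jv N c 1 ^ 2 + 2 * (jv N c 0 * jv N c 2)] l else 0 := by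
  unfold T2
  rw [show jv N c' l = X (Sum.inl (c', l)) from rfl, mkDerivation_X]
  rfl

theorem T2_pa (c c' : Fin 2) (k : Fin N) :
    T2 N c (pa c' k) = if c' = c then pa c' k ^ 2 else 0 := by
  unfold T2
  rw [show (pa c' k : S N) = X (Sum.inr (c', k)) from rfl, mkDerivation_X]
  rfl

theorem A_ne (i j i' : Fin N) (h : i' ≠ i) :
    ∃ θ : Derivation ℚ (S N) (S N), (∀ v, node i j (A 0 i' (X v)) = θ (node i j (X v))) ∧
      jv N 0 0 ∣ θ (jv N 0 0) := by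
  refine ⟨der (fun _ _ => 0) (fun c k => if c = 0 ∧ k = i' then
    (pa 0 i + jv N 0 0 - pa 0 i') ^ 3 else 0), check i j _ _ ?_ ?_ ?_ ?_ ?_ ?_ ?_, ?_⟩
  · rw [A_jv, map_zero, der_jv, der_pa, if_neg (fun hh => h hh.2.symm), add_zero]
  · rw [A_jv, map_zero, der_jv]
  · rw [A_jv, map_zero, der_jv]
  · rw [A_jv, map_zero, der_jv, der_jv, der_pa, if_neg (fun hh => absurd hh.1 (by decide))]
    ring
  · rw [A_jv, map_zero, der_jv, der_jv, der_jv, der_jv]
    ring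
  · rw [A_jv, map_zero, der_jv, der_jv, der_jv, der_jv, der_jv, der_jv]
    ring
  · intro c k
    rw [A_pa, der_pa]
    split_ifs with h1
    · rw [map_pow, map_sub, node_x0, node_pa]
    · rw [map_zero]
  · rw [der_jv]
    exact dvd_zero _

theorem A_eq (i j : Fin N) :
    ∃ θ : Derivation ℚ (S N) (S N), (∀ v, node i j (A 0 i (X v)) = θ (node i j (X v))) ∧
      jv N 0 0 ∣ θ (jv N 0 0) := by
  refine ⟨der ![![-jv N 0 0 ^ 3, 0, 0],
    ![jv N 0 0 ^ 2 * jv N 1 0,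
      jv N 0 0 ^ 2 * jv N 1 1 - jv N 0 0 * jv N 0 1 * jv N 1 0,
      jv N 0 0 ^ 2 * jv N 1 2 - 2 * (jv N 0 0 * jv N 0 1 * jv N 1 1) -
        jv N 0 0 * jv N 0 2 * jv N 1 0 + 2 * (jv N 0 1 ^ 2 * jv N 1 0)]]
    (fun c k => if c = 0 ∧ k = i then jv N 0 0 ^ 3 else 0), check i j _ _ ?_ ?_ ?_ ?_ ?_ ?_ ?_, ?_⟩
  · rw [A_jv, map_zero, der_jv, der_pa, if_pos ⟨rfl, rfl⟩]
    show 0 = jv N 0 0 ^ 3 + -jv N 0 0 ^ 3
    ring
  · rw [A_jv, map_zero, der_jv]
    rfl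
  · rw [A_jv, map_zero, der_jv]
    rfl
  · rw [A_jv, map_zero, der_jv, der_jv, der_pa, if_neg (fun hh => absurd hh.1 (by decide))]
    show 0 = 0 + (-jv N 0 0 ^ 3 * jv N 1 0 + jv N 0 0 * (jv N 0 0 ^ 2 * jv N 1 0))
    ring
  · rw [A_jv, map_zero, der_jv, der_jv, der_jv, der_jv]
    show 0 = (0 * jv N 1 0 + jv N 0 1 * (jv N 0 0 ^ 2 * jv N 1 0)) +
      (-jv N 0 0 ^ 3 * jv N 1 1 + jv N 0 0 * (jv N 0 0 ^ 2 * jv N 1 1 -
        jv N 0 0 * jv N 0 1 * jv N 1 0))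
    ring
  · rw [A_jv, map_zero, der_jv, der_jv, der_jv, der_jv, der_jv, der_jv]
    show 0 = (0 * jv N 1 0 + jv N 0 2 * (jv N 0 0 ^ 2 * jv N 1 0)) +
      2 * (0 * jv N 1 1 + jv N 0 1 * (jv N 0 0 ^ 2 * jv N 1 1 -
        jv N 0 0 * jv N 0 1 * jv N 1 0)) +
      (-jv N 0 0 ^ 3 * jv N 1 2 + jv N 0 0 * (jv N 0 0 ^ 2 * jv N 1 2 -
        2 * (jv N 0 0 * jv N 0 1 * jv N 1 1) -
        jv N 0 0 * jv N 0 2 * jv N 1 0 + 2 * (jv N 0 1 ^ 2 * jv N 1 0)))
    ring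
  · intro c k
    rw [A_pa, der_pa]
    split_ifs with h1
    · rw [map_pow, map_sub, node_x0, node_pa, add_sub_cancel_left]
    · rw [map_zero]
  · rw [der_jv]
    exact ⟨-jv N 0 0 ^ 2, by show -jv N 0 0 ^ 3 = _; ring⟩

theorem T0_x (i j : Fin N) :
    ∃ θ : Derivation ℚ (S N) (S N), (∀ v, node i j (T0 N 0 (X v)) = θ (node i j (X v))) ∧
      jv N 0 0 ∣ θ (jv N 0 0) := by
  refine ⟨der (fun _ _ => 0) (fun c _ => if c = 0 then 1 else 0),
    check i j _ _ ?_ ?_ ?_ ?_ ?_ ?_ ?_, ?_⟩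
  · rw [T0_jv, if_pos ⟨rfl, rfl⟩, map_one, der_jv, der_pa, if_pos rfl, add_zero]
  · rw [T0_jv, if_neg (fun hh => absurd hh.2 (by decide)), map_zero, der_jv]
  · rw [T0_jv, if_neg (fun hh => absurd hh.2 (by decide)), map_zero, der_jv]
  · rw [T0_jv, if_neg (fun hh => absurd hh.1 (by decide)), map_zero, der_jv, der_jv, der_pa,
      if_neg (by decide)]
    ring
  · rw [T0_jv, if_neg (fun hh => absurd hh.1 (by decide)), map_zero, der_jv, der_jv, der_jv,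
      der_jv]
    ring
  · rw [T0_jv, if_neg (fun hh => absurd hh.1 (by decide)), map_zero, der_jv, der_jv, der_jv,
      der_jv, der_jv, der_jv]
    ring
  · intro c k
    rw [T0_pa, der_pa]
    split_ifs with h1
    · rw [map_one]
    · rw [map_zero]
  · rw [der_jv]
    exact dvd_zero _

theorem T1_x (i j : Fin N) :
    ∃ θ : Derivation ℚ (S N) (S N), (∀ v, node i j (T1 N 0 (X v)) = θ (node i j (X v))) ∧
      jv N 0 0 ∣ θ (jv N 0 0) := by
  refine ⟨der ![![jv N 0 0, jv N 0 1, jv N 0 2], ![-jv N 1 0, -jv N 1 1, -jv N 1 2]]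
    (fun c k => if c = 0 then pa c k else 0),
    check i j _ _ ?_ ?_ ?_ ?_ ?_ ?_ ?_, ?_⟩
  · rw [T1_jv, if_pos rfl, node_x0, der_jv, der_pa, if_pos rfl]
    rfl
  · rw [T1_jv, if_pos rfl, node_x1, der_jv]
    rfl
  · rw [T1_jv, if_pos rfl, node_x2, der_jv]
    rfl
  · rw [T1_jv, if_neg (by decide), map_zero, der_jv, der_jv, der_pa, if_neg (by decide)]
    show 0 = 0 + (jv N 0 0 * jv N 1 0 + jv N 0 0 * -jv N 1 0)
    ring
  · rw [T1_jv, if_neg (by decide), map_zero, der_jv, der_jv, der_jv, der_jv]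
    show 0 = (jv N 0 1 * jv N 1 0 + jv N 0 1 * -jv N 1 0) +
      (jv N 0 0 * jv N 1 1 + jv N 0 0 * -jv N 1 1)
    ring
  · rw [T1_jv, if_neg (by decide), map_zero, der_jv, der_jv, der_jv, der_jv, der_jv, der_jv]
    show 0 = (jv N 0 2 * jv N 1 0 + jv N 0 2 * -jv N 1 0) +
      2 * (jv N 0 1 * jv N 1 1 + jv N 0 1 * -jv N 1 1) +
      (jv N 0 0 * jv N 1 2 + jv N 0 0 * -jv N 1 2)
    ring
  · intro c k
    rw [T1_pa, der_pa]
    split_ifs with h1
    · rw [node_pa]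
    · rw [map_zero]
  · rw [der_jv]
    exact dvd_rfl

theorem T2_x (i j : Fin N) :
    ∃ θ : Derivation ℚ (S N) (S N), (∀ v, node i j (T2 N 0 (X v)) = θ (node i j (X v))) ∧
      jv N 0 0 ∣ θ (jv N 0 0) := by
  refine ⟨der ![![2 * (pa 0 i * jv N 0 0) + jv N 0 0 ^ 2, 2 * ((pa 0 i + jv N 0 0) * jv N 0 1),
      2 * jv N 0 1 ^ 2 + 2 * ((pa 0 i + jv N 0 0) * jv N 0 2)],
    ![-(2 * pa 0 i + jv N 0 0) * jv N 1 0,
      -(jv N 0 1 * jv N 1 0) - (2 * pa 0 i + jv N 0 0) * jv N 1 1,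
      -(jv N 0 2 * jv N 1 0) - 2 * (jv N 0 1 * jv N 1 1) - (2 * pa 0 i + jv N 0 0) * jv N 1 2]]
    (fun c k => if c = 0 then pa c k ^ 2 else 0),
    check i j _ _ ?_ ?_ ?_ ?_ ?_ ?_ ?_, ?_⟩
  · rw [T2_jv, if_pos rfl, der_jv, der_pa, if_pos rfl]
    show node i j (jv N 0 0 ^ 2) = pa 0 i ^ 2 + (2 * (pa 0 i * jv N 0 0) + jv N 0 0 ^ 2)
    rw [map_pow, node_x0]
    ring
  · rw [T2_jv, if_pos rfl, der_jv]
    show node i j (2 * (jv N 0 0 * jv N 0 1)) = 2 * ((pa 0 i + jv N 0 0) * jv N 0 1)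
    rw [map_mul, map_mul, map_ofNat, node_x0, node_x1]
  · rw [T2_jv, if_pos rfl, der_jv]
    show node i j (2 * jv N 0 1 ^ 2 + 2 * (jv N 0 0 * jv N 0 2)) =
      2 * jv N 0 1 ^ 2 + 2 * ((pa 0 i + jv N 0 0) * jv N 0 2)
    rw [map_add, map_mul, map_mul, map_mul, map_ofNat, map_pow, node_x0, node_x1, node_x2]
  · rw [T2_jv, if_neg (by decide), map_zero, der_jv, der_jv, der_pa, if_neg (by decide)]
    show 0 = 0 + ((2 * (pa 0 i * jv N 0 0) + jv N 0 0 ^ 2) * jv N 1 0 +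
      jv N 0 0 * (-(2 * pa 0 i + jv N 0 0) * jv N 1 0))
    ring
  · rw [T2_jv, if_neg (by decide), map_zero, der_jv, der_jv, der_jv, der_jv]
    show 0 = (2 * ((pa 0 i + jv N 0 0) * jv N 0 1) * jv N 1 0 +
        jv N 0 1 * (-(2 * pa 0 i + jv N 0 0) * jv N 1 0)) +
      ((2 * (pa 0 i * jv N 0 0) + jv N 0 0 ^ 2) * jv N 1 1 +
        jv N 0 0 * (-(jv N 0 1 * jv N 1 0) - (2 * pa 0 i + jv N 0 0) * jv N 1 1))
    ring
  · rw [T2_jv, if_neg (by decide), map_zero, der_jv, der_jv, der_jv, der_jv, der_jv, der_jv]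
    show 0 = ((2 * jv N 0 1 ^ 2 + 2 * ((pa 0 i + jv N 0 0) * jv N 0 2)) * jv N 1 0 +
        jv N 0 2 * (-(2 * pa 0 i + jv N 0 0) * jv N 1 0)) +
      2 * (2 * ((pa 0 i + jv N 0 0) * jv N 0 1) * jv N 1 1 +
        jv N 0 1 * (-(jv N 0 1 * jv N 1 0) - (2 * pa 0 i + jv N 0 0) * jv N 1 1)) +
      ((2 * (pa 0 i * jv N 0 0) + jv N 0 0 ^ 2) * jv N 1 2 +
        jv N 0 0 * (-(jv N 0 2 * jv N 1 0) - 2 * (jv N 0 1 * jv N 1 1) -
          (2 * pa 0 i + jv N 0 0) * jv N 1 2))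
    ring
  · intro c k
    rw [T2_pa, der_pa]
    split_ifs with h1
    · rw [map_pow, node_pa]
    · rw [map_zero]
  · rw [der_jv]
    exact ⟨2 * pa 0 i + jv N 0 0, by
      show 2 * (pa 0 i * jv N 0 0) + jv N 0 0 ^ 2 = _
      ring⟩

/-- CLX -/
theorem clx (hCla : ClaStmt) : ClxStmt := by
  intro N ν i j P hP
  have key : ∀ δ : Derivation ℚ (S N) (S N), (∃ θ : Derivation ℚ (S N) (S N),
      (∀ v, node i j (δ (X v)) = θ (node i j (X v))) ∧ jv N 0 0 ∣ θ (jv N 0 0)) →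
      jv N 0 0 ^ ν ∣ node i j (δ P) := by
    rintro δ ⟨θ, h1, h2⟩
    exact (hCla N i j δ θ h1).2 h2 ν P hP
  refine ⟨fun i' => ?_, key _ (T0_x i j), key _ (T1_x i j), key _ (T2_x i j)⟩
  by_cases h : i' = i
  · rw [h]
    exact key _ (A_eq i j)
  · exact key _ (A_ne i j i' h)

end Pool.Agent.PRS.H65
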